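import Pool.Agent.MP_1037db_co.Q.S4
import Pool.Agent.MP_1037db_co.Q.E.S1C0
import Pool.Agent.MP_1037db_co.Q.E.S3C0
import Pool.Agent.MP_1037db_co.Q.E.S3C1
import Pool.Agent.MP_1037db_co.Q.E.S3C2
import Pool.Agent.MP_1037db_co.Q.E.S13P1
import Pool.Agent.MP_1037db_co.Q.E.S13P2
import Pool.Agent.MP_1037db_co.Q.E.S13C0
import Pool.Agent.MP_1037db_co.Q.E.S13C1
import Pool.Agent.MP_1037db_co.Q.E.S13C2
import Pool.Agent.MP_1037db_co.Q.E.S13C3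
import Pool.Agent.MP_1037db_co.Q.E.S13C4
import Pool.Agent.MP_1037db_co.Q.E.S13C5
import Pool.Agent.MP_1037db_co.Q.E.S13C6
import Pool.Agent.MP_1037db_co.Q.E.S13C7
import Pool.Agent.MP_1037db_co.Q.E.S13C8
import Pool.Agent.MP_1037db_co.Q.E.S13C9
import Pool.Agent.MP_1037db_co.Q.E.S13C10
import Pool.Agent.MP_1037db_co.Q.E.S13C11
import Pool.Agent.MP_1037db_co.Q.E.S13C12
import Pool.Agent.MP_1037db_co.Q.E.S13C13
import Pool.Agent.MP_1037db_co.Q.E.S13C14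
import Pool.Agent.MP_1037db_co.Q.E.S13C15
import Pool.Agent.MP_1037db_co.Q.E.S13C16
import Pool.Agent.MP_1037db_co.Q.E.S13C17
import Pool.Agent.MP_1037db_co.Q.E.S13C18
import Pool.Agent.MP_1037db_co.Q.E.S13C19
import Pool.Agent.MP_1037db_co.Q.E.S13C20
import Pool.Agent.MP_1037db_co.Q.E.S13C21
import Pool.Agent.MP_1037db_co.Q.E.S13C22
import Pool.Agent.MP_1037db_co.Q.E.S13C23
import Pool.Agent.MP_1037db_co.Q.E.S13C24
import Pool.Agent.MP_1037db_co.Q.E.S13C25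
import Pool.Agent.MP_1037db_co.Q.E.S13C26
import Pool.Agent.MP_1037db_co.Q.E.S13C27
import Pool.Agent.MP_1037db_co.Q.E.S13C28
import Pool.Agent.MP_1037db_co.Q.E.S13C29
import Pool.Agent.MP_1037db_co.Q.E.S13C30
import Pool.Agent.MP_1037db_co.Q.E.S13C31
import Pool.Agent.MP_1037db_co.Q.E.S13C32
import Pool.Agent.MP_1037db_co.Q.E.S13C33
import Pool.Agent.MP_1037db_co.Q.E.S21C0

namespace Pool.Agent.MP_1037db_co.Q.E

open LP PT.Ke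

set_option linter.defProp false
set_option maxRecDepth 100000

noncomputable section

theorem tab1 : tab FA FB D1 R1 5 = true := by decide +kernel

theorem seg1 : Seg ⟨FA, FB, FT, 69657, 10049, 39817, geo_ok⟩ 10049 9617 0 2200 := fun _ E β ht h hb h' => by
  letI : Geo := ⟨FA, FB, FT, 69657, 10049, 39817, geo_ok⟩
  have c : rd R1 35 = 9617 := by decide +kernel
  have g := tc_re (E := E) tab1 (ro := 10049) (C0 := 9617) (by decide +kernel) ht hb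
  have s : St (E.re tab1) β 9617 H1_0 (0 * 32) _ X1_0 _ _ _ _ _ _ :=
    g.start H1_0 9617 0 (by decide +kernel) h h'
  have s : St _ β _ _ (128 * 32) _ _ _ _ _ _ _ _ := s.ru g okX1_0 p1_0_0
  have s : St _ β _ _ (189 * 32) _ _ _ _ _ _ _ _ := s.ru g okX1_0 p1_1_0
  have s : St _ β _ _ (189 * 32) _ _ _ _ _ _ _ _ := s.rnz (i := 6048) g r1_1_11 ⟨by norm_num, c⟩
  have s : St _ β _ _ (189 * 32) _ _ _ _ _ _ _ _ := s.rnz (i := 6048) g r1_1_12 ⟨by norm_num, c⟩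
  have s : St _ β _ _ (189 * 32) _ _ _ _ _ _ _ _ := s.rnz (i := 6048) g r1_2_0 ⟨by norm_num, c⟩
  have s : St _ β _ _ (189 * 32) _ _ _ _ _ _ _ _ := s.rnz (i := 6048) g r1_2_1 ⟨by norm_num, c⟩
  have s : St _ β _ _ (189 * 32) _ _ _ _ _ _ _ _ := s.rnz (i := 6048) g r1_2_2 ⟨by norm_num, c⟩
  have s : St _ β _ _ (189 * 32) _ _ _ _ _ _ _ _ := s.rnz (i := 6048) g r1_2_3 ⟨by norm_num, c⟩
  have s : St _ β _ _ (189 * 32) _ _ _ _ _ _ _ _ := s.rnz (i := 6048) g r1_2_4 ⟨by norm_num, c⟩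
  have s : St _ β _ _ (189 * 32) _ _ _ _ _ _ _ _ := s.rnz (i := 6048) g r1_2_5 ⟨by norm_num, c⟩
  have s : St _ β _ _ (189 * 32) _ _ _ _ _ _ _ _ := s.rnz (i := 6048) g r1_2_6 ⟨by norm_num, c⟩
  have s : St _ β _ _ (189 * 32) _ _ _ _ _ _ _ _ := s.rnz (i := 6048) g r1_3_0 ⟨by norm_num, c⟩
  have s : St _ β _ _ (189 * 32) _ _ _ _ _ _ _ _ := s.rnz (i := 6048) g r1_3_1 ⟨by norm_num, c⟩
  have s : St _ β _ _ (189 * 32) _ _ _ _ _ _ _ _ := s.rnz (i := 6048) g r1_3_2 ⟨by norm_num, c⟩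
  have s : St _ β _ _ (189 * 32) _ _ _ _ _ _ _ _ := s.rnz (i := 6048) g r1_3_3 ⟨by norm_num, c⟩
  have s : St _ β _ _ (189 * 32) _ _ _ _ _ _ _ _ := s.rnz (i := 6048) g r1_3_4 ⟨by norm_num, c⟩
  have s : St _ β _ _ (189 * 32) _ _ _ _ _ _ _ _ := s.rnz (i := 6048) g r1_3_5 ⟨by norm_num, c⟩
  have s : St _ β _ _ (189 * 32) _ _ _ _ _ _ _ _ := s.rnz (i := 6048) g r1_3_6 ⟨by norm_num, c⟩
  have s : St _ β _ _ (189 * 32) _ _ _ _ _ _ _ _ := s.rnz (i := 6048) g r1_4_0 ⟨by norm_num, c⟩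
  have s : St _ β _ _ (189 * 32) _ _ _ _ _ _ _ _ := s.rnz (i := 6048) g r1_4_1 ⟨by norm_num, c⟩
  have s : St _ β _ _ (189 * 32) _ _ _ _ _ _ _ _ := s.rnz (i := 6048) g r1_4_2 ⟨by norm_num, c⟩
  exact s.out g (by decide +kernel)

theorem tab3 : tab FA FB D3 R3 8 = true := by decide +kernel

theorem seg3 : Seg ⟨FA, FB, FT, 69657, 10049, 39817, geo_ok⟩ 10049 9617 2200 3200 := fun _ E β ht h hb h' => by
  letI : Geo := ⟨FA, FB, FT, 69657, 10049, 39817, geo_ok⟩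
  have c : rd R3 35 = 9617 := by decide +kernel
  have g := tc_re (E := E) tab3 (ro := 10049) (C0 := 9617) (by decide +kernel) ht hb
  have s : St (E.re tab3) β 9617 H3_0 (0 * 32) _ X3_0 _ _ _ _ _ _ :=
    g.start H3_0 9617 1 (by decide +kernel) h h'
  have s : St _ β _ _ (147 * 32) _ _ _ _ _ _ _ _ := s.ru g okX3_0 p3_0_0
  have s : St _ β _ _ (241 * 32) _ _ _ _ _ _ _ _ := s.ru g okX3_0 p3_1_0
  have s : St _ β _ _ (310 * 32) _ _ _ _ _ _ _ _ := s.ru g okX3_0 p3_2_0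
  have s : St _ β _ _ (381 * 32) _ _ _ _ _ _ _ _ := s.ru g okX3_0 p3_3_0
  have s : St _ β _ _ (443 * 32) _ _ _ _ _ _ _ _ := s.ru g okX3_0 p3_4_0
  have s : St _ β _ _ (505 * 32) _ _ _ _ _ _ _ _ := s.ru g okX3_0 p3_5_0
  have s : St _ β _ _ (568 * 32) _ _ _ _ _ _ _ _ := s.ru g okX3_0 p3_6_0
  have s : St _ β _ _ (622 * 32) _ _ _ _ _ _ _ _ := s.ru g okX3_0 p3_7_0
  have s : St _ β _ _ (667 * 32) _ _ _ _ _ _ _ _ := s.ru g okX3_0 p3_8_0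
  have s : St _ β _ _ (702 * 32) _ _ _ _ _ _ _ _ := s.ru g okX3_0 p3_9_0
  have s : St _ β _ _ (727 * 32) _ _ _ _ _ _ _ _ := s.ru g okX3_0 p3_10_0
  have s : St _ β _ _ (750 * 32) _ _ _ _ _ _ _ _ := s.ru g okX3_0 p3_11_0
  have s : St _ β _ _ (758 * 32) _ _ _ _ _ _ _ _ := s.ru g okX3_0 p3_12_0
  have s : St _ β _ _ (758 * 32) _ _ _ _ _ _ _ _ := s.rnz (i := 24256) g r3_12_5 ⟨by norm_num, c⟩
  have s : St _ β _ _ (758 * 32) _ _ _ _ _ _ _ _ := s.rnz (i := 24256) g r3_12_6 ⟨by norm_num, c⟩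
  have s : St _ β _ _ (758 * 32) _ _ _ _ _ _ _ _ := s.rnz (i := 24256) g r3_12_7 ⟨by norm_num, c⟩
  have s : St _ β _ _ (758 * 32) _ _ _ _ _ _ _ _ := s.rnz (i := 24256) g r3_12_8 ⟨by norm_num, c⟩
  have s : St _ β _ _ (758 * 32) _ _ _ _ _ _ _ _ := s.rnz (i := 24256) g r3_13_0 ⟨by norm_num, c⟩
  have s : St _ β _ _ (758 * 32) _ _ _ _ _ _ _ _ := s.rnz (i := 24256) g r3_13_1 ⟨by norm_num, c⟩
  have s : St _ β _ _ (758 * 32) _ _ _ _ _ _ _ _ := s.rnz (i := 24256) g r3_13_2 ⟨by norm_num, c⟩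
  have s : St _ β _ _ (758 * 32) _ _ _ _ _ _ _ _ := s.rnz (i := 24256) g r3_13_3 ⟨by norm_num, c⟩
  have s : St _ β _ _ (758 * 32) _ _ _ _ _ _ _ _ := s.rnz (i := 24256) g r3_13_4 ⟨by norm_num, c⟩
  have s : St _ β _ _ (758 * 32) _ _ _ _ _ _ _ _ := s.rnz (i := 24256) g r3_13_5 ⟨by norm_num, c⟩
  have s : St _ β _ _ (758 * 32) _ _ _ _ _ _ _ _ := s.rnz (i := 24256) g r3_13_6 ⟨by norm_num, c⟩
  have s : St _ β _ _ (758 * 32) _ _ _ _ _ _ _ _ := s.rnz (i := 24256) g r3_14_0 ⟨by norm_num, c⟩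
  have s : St _ β _ _ (758 * 32) _ _ _ _ _ _ _ _ := s.rnz (i := 24256) g r3_14_1 ⟨by norm_num, c⟩
  have s : St _ β _ _ (758 * 32) _ _ _ _ _ _ _ _ := s.rnz (i := 24256) g r3_14_2 ⟨by norm_num, c⟩
  have s : St _ β _ _ (758 * 32) _ _ _ _ _ _ _ _ := s.rnz (i := 24256) g r3_14_3 ⟨by norm_num, c⟩
  have s : St _ β _ _ (758 * 32) _ _ _ _ _ _ _ _ := s.rnz (i := 24256) g r3_14_4 ⟨by norm_num, c⟩
  have s : St _ β _ _ (758 * 32) _ _ _ _ _ _ _ _ := s.rnz (i := 24256) g r3_14_5 ⟨by norm_num, c⟩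
  have s : St _ β _ _ (758 * 32) _ _ _ _ _ _ _ _ := s.rnz (i := 24256) g r3_14_6 ⟨by norm_num, c⟩
  have s : St _ β _ _ (758 * 32) _ _ _ _ _ _ _ _ := s.rnz (i := 24256) g r3_15_0 ⟨by norm_num, c⟩
  have s : St _ β _ _ (758 * 32) _ _ _ _ _ _ _ _ := s.rnz (i := 24256) g r3_15_1 ⟨by norm_num, c⟩
  have s : St _ β _ _ (758 * 32) _ _ _ _ _ _ _ _ := s.rnz (i := 24256) g r3_15_2 ⟨by norm_num, c⟩
  have s : St _ β _ _ (758 * 32) _ _ _ _ _ _ _ _ := s.rnz (i := 24256) g r3_15_3 ⟨by norm_num, c⟩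
  have s : St _ β _ _ (758 * 32) _ _ _ _ _ _ _ _ := s.rnz (i := 24256) g r3_15_4 ⟨by norm_num, c⟩
  have s : St _ β _ _ (758 * 32) _ _ _ _ _ _ _ _ := s.rnz (i := 24256) g r3_15_5 ⟨by norm_num, c⟩
  have s : St _ β _ _ (758 * 32) _ _ _ _ _ _ _ _ := s.rnz (i := 24256) g r3_15_6 ⟨by norm_num, c⟩
  have s : St _ β _ _ (758 * 32) _ _ _ _ _ _ _ _ := s.rnz (i := 24256) g r3_16_0 ⟨by norm_num, c⟩
  have s : St _ β _ _ (758 * 32) _ _ _ _ _ _ _ _ := s.rnz (i := 24256) g r3_16_1 ⟨by norm_num, c⟩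
  have s : St _ β _ _ (758 * 32) _ _ _ _ _ _ _ _ := s.rnz (i := 24256) g r3_16_2 ⟨by norm_num, c⟩
  have s : St _ β _ _ (758 * 32) _ _ _ _ _ _ _ _ := s.rnz (i := 24256) g r3_16_3 ⟨by norm_num, c⟩
  have s : St _ β _ _ (758 * 32) _ _ _ _ _ _ _ _ := s.rnz (i := 24256) g r3_16_4 ⟨by norm_num, c⟩
  have s : St _ β _ _ (758 * 32) _ _ _ _ _ _ _ _ := s.rnz (i := 24256) g r3_16_5 ⟨by norm_num, c⟩
  have s : St _ β _ _ (758 * 32) _ _ _ _ _ _ _ _ := s.rnz (i := 24256) g r3_16_6 ⟨by norm_num, c⟩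
  have s : St _ β _ _ (758 * 32) _ _ _ _ _ _ _ _ := s.rnz (i := 24256) g r3_17_0 ⟨by norm_num, c⟩
  exact s.out g (by decide +kernel)

theorem tab13 : tab FA FB D13 R13 11 = true := by decide +kernel

theorem seg13 : Seg ⟨FA, FB, FT, 69657, 10049, 39817, geo_ok⟩ 10049 9617 3200 8400 := fun _ E β ht h hb h' => by
  letI : Geo := ⟨FA, FB, FT, 69657, 10049, 39817, geo_ok⟩
  have c : rd R13 35 = 9617 := by decide +kernel
  have g := tc_re (E := E) tab13 (ro := 10049) (C0 := 9617) (by decide +kernel) ht hb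
  have s : St (E.re tab13) β 9617 H13_0 (0 * 32) _ X13_0 _ _ _ _ _ _ :=
    g.start H13_0 9617 1 (by decide +kernel) h h'
  have s : St _ β _ _ (156 * 32) _ _ _ _ _ _ _ _ := s.ru g okX13_0 p13_0_0
  have s : St _ β _ _ (262 * 32) _ _ _ _ _ _ _ _ := s.ru g okX13_0 p13_1_0
  have s : St _ β _ _ (345 * 32) _ _ _ _ _ _ _ _ := s.ru g okX13_0 p13_2_0
  have s : St _ β _ _ (406 * 32) _ _ _ _ _ _ _ _ := s.ru g okX13_0 p13_3_0
  have s : St _ β _ _ (471 * 32) _ _ _ _ _ _ _ _ := s.ru g okX13_0 p13_4_0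
  have s : St _ β _ _ (539 * 32) _ _ _ _ _ _ _ _ := s.ru g okX13_0 p13_5_0
  have s : St _ β _ _ (596 * 32) _ _ _ _ _ _ _ _ := s.ru g okX13_0 p13_6_0
  have s : St _ β _ _ (652 * 32) _ _ _ _ _ _ _ _ := s.ru g okX13_0 p13_7_0
  have s : St _ β _ _ (709 * 32) _ _ _ _ _ _ _ _ := s.ru g okX13_0 p13_8_0
  have s : St _ β _ _ (761 * 32) _ _ _ _ _ _ _ _ := s.ru g okX13_0 p13_9_0
  have s : St _ β _ _ (813 * 32) _ _ _ _ _ _ _ _ := s.ru g okX13_0 p13_10_0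
  have s : St _ β _ _ (862 * 32) _ _ _ _ _ _ _ _ := s.ru g okX13_0 p13_11_0
  have s : St _ β _ _ (913 * 32) _ _ _ _ _ _ _ _ := s.ru g okX13_0 p13_12_0
  have s : St _ β _ _ (966 * 32) _ _ _ _ _ _ _ _ := s.ru g okX13_0 p13_13_0
  have s : St _ β _ _ (1017 * 32) _ _ _ _ _ _ _ _ := s.ru g okX13_0 p13_14_0
  have s : St _ β _ _ (1060 * 32) _ _ _ _ _ _ _ _ := s.ru g okX13_0 p13_15_0
  have s : St _ β _ _ (1106 * 32) _ _ _ _ _ _ _ _ := s.ru g okX13_0 p13_16_0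
  have s : St _ β _ _ (1139 * 32) _ _ _ _ _ _ _ _ := s.ru g okX13_0 p13_17_0
  have s : St _ β _ _ (1179 * 32) _ _ _ _ _ _ _ _ := s.ru g okX13_0 p13_18_0
  have s : St _ β _ _ (1204 * 32) _ _ _ _ _ _ _ _ := s.ru g okX13_0 p13_19_0
  have s : St _ β _ _ (1230 * 32) _ _ _ _ _ _ _ _ := s.ru g okX13_0 p13_20_0
  have s : St _ β _ _ (1257 * 32) _ _ _ _ _ _ _ _ := s.ru g okX13_0 p13_21_0
  have s : St _ β _ _ (1284 * 32) _ _ _ _ _ _ _ _ := s.ru g okX13_0 p13_22_0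
  have s : St _ β _ _ (1306 * 32) _ _ _ _ _ _ _ _ := s.ru g okX13_0 p13_23_0
  have s : St _ β _ _ (1327 * 32) _ _ _ _ _ _ _ _ := s.ru g okX13_0 p13_24_0
  have s : St _ β _ _ (1349 * 32) _ _ _ _ _ _ _ _ := s.ru g okX13_0 p13_25_0
  have s : St _ β _ _ (1374 * 32) _ _ _ _ _ _ _ _ := s.ru g okX13_0 p13_26_0
  have s : St _ β _ _ (1391 * 32) _ _ _ _ _ _ _ _ := s.ru g okX13_0 p13_27_0
  have s : St _ β _ _ (1404 * 32) _ _ _ _ _ _ _ _ := s.ru g okX13_0 p13_28_0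
  have s : St _ β _ _ (1404 * 32) _ _ _ _ _ _ _ _ := s.rnz (i := 44928) g r13_28_8 ⟨by norm_num, c⟩
  have s : St _ β _ _ (1404 * 32) _ _ _ _ _ _ _ _ := s.rnz (i := 44928) g r13_29_0 ⟨by norm_num, c⟩
  have s : St _ β _ _ (1404 * 32) _ _ _ _ _ _ _ _ := s.rnz (i := 44928) g r13_29_1 ⟨by norm_num, c⟩
  have s : St _ β _ _ (1404 * 32) _ _ _ _ _ _ _ _ := s.rnz (i := 44928) g r13_29_2 ⟨by norm_num, c⟩
  have s : St _ β _ _ (1404 * 32) _ _ _ _ _ _ _ _ := s.rnz (i := 44928) g r13_29_3 ⟨by norm_num, c⟩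
  have s : St _ β _ _ (1404 * 32) _ _ _ _ _ _ _ _ := s.rnz (i := 44928) g r13_29_4 ⟨by norm_num, c⟩
  have s : St _ β _ _ (1404 * 32) _ _ _ _ _ _ _ _ := s.rnz (i := 44928) g r13_29_5 ⟨by norm_num, c⟩
  have s : St _ β _ _ (1404 * 32) _ _ _ _ _ _ _ _ := s.rnz (i := 44928) g r13_30_0 ⟨by norm_num, c⟩
  have s : St _ β _ _ (1404 * 32) _ _ _ _ _ _ _ _ := s.rnz (i := 44928) g r13_30_1 ⟨by norm_num, c⟩
  have s : St _ β _ _ (1404 * 32) _ _ _ _ _ _ _ _ := s.rnz (i := 44928) g r13_30_2 ⟨by norm_num, c⟩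
  have s : St _ β _ _ (1404 * 32) _ _ _ _ _ _ _ _ := s.rnz (i := 44928) g r13_30_3 ⟨by norm_num, c⟩
  have s : St _ β _ _ (1404 * 32) _ _ _ _ _ _ _ _ := s.rnz (i := 44928) g r13_30_4 ⟨by norm_num, c⟩
  have s : St _ β _ _ (1404 * 32) _ _ _ _ _ _ _ _ := s.rnz (i := 44928) g r13_30_5 ⟨by norm_num, c⟩
  have s : St _ β _ _ (1404 * 32) _ _ _ _ _ _ _ _ := s.rnz (i := 44928) g r13_30_6 ⟨by norm_num, c⟩
  have s : St _ β _ _ (1404 * 32) _ _ _ _ _ _ _ _ := s.rnz (i := 44928) g r13_31_0 ⟨by norm_num, c⟩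
  have s : St _ β _ _ (1404 * 32) _ _ _ _ _ _ _ _ := s.rnz (i := 44928) g r13_31_1 ⟨by norm_num, c⟩
  have s : St _ β _ _ (1404 * 32) _ _ _ _ _ _ _ _ := s.rnz (i := 44928) g r13_31_2 ⟨by norm_num, c⟩
  have s : St _ β _ _ (1404 * 32) _ _ _ _ _ _ _ _ := s.rnz (i := 44928) g r13_31_3 ⟨by norm_num, c⟩
  have s : St _ β _ _ (1404 * 32) _ _ _ _ _ _ _ _ := s.rnz (i := 44928) g r13_31_4 ⟨by norm_num, c⟩
  have s : St _ β _ _ (1404 * 32) _ _ _ _ _ _ _ _ := s.rnz (i := 44928) g r13_31_5 ⟨by norm_num, c⟩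
  have s : St _ β _ _ (1404 * 32) _ _ _ _ _ _ _ _ := s.rnz (i := 44928) g r13_31_6 ⟨by norm_num, c⟩
  have s : St _ β _ _ (1404 * 32) _ _ _ _ _ _ _ _ := s.rnz (i := 44928) g r13_32_0 ⟨by norm_num, c⟩
  have s : St _ β _ _ (1404 * 32) _ _ _ _ _ _ _ _ := s.rnz (i := 44928) g r13_32_1 ⟨by norm_num, c⟩
  have s : St _ β _ _ (1404 * 32) _ _ _ _ _ _ _ _ := s.rnz (i := 44928) g r13_32_2 ⟨by norm_num, c⟩
  have s : St _ β _ _ (1404 * 32) _ _ _ _ _ _ _ _ := s.rnz (i := 44928) g r13_32_3 ⟨by norm_num, c⟩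
  have s : St _ β _ _ (1404 * 32) _ _ _ _ _ _ _ _ := s.rnz (i := 44928) g r13_32_4 ⟨by norm_num, c⟩
  have s : St _ β _ _ (1404 * 32) _ _ _ _ _ _ _ _ := s.rnz (i := 44928) g r13_32_5 ⟨by norm_num, c⟩
  have s : St _ β _ _ (1404 * 32) _ _ _ _ _ _ _ _ := s.rnz (i := 44928) g r13_32_6 ⟨by norm_num, c⟩
  have s : St _ β _ _ (1404 * 32) _ _ _ _ _ _ _ _ := s.rnz (i := 44928) g r13_33_0 ⟨by norm_num, c⟩
  have s : St _ β _ _ (1514 * 32) _ _ _ _ _ _ _ _ := s.ru g okX13_38 p13_33_1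
  have s : St _ β _ _ (1585 * 32) _ _ _ _ _ _ _ _ := s.ru g okX13_38 p13_34_0
  have s : St _ β _ _ (1637 * 32) _ _ _ _ _ _ _ _ := s.ru g okX13_38 p13_35_0
  have s : St _ β _ _ (1678 * 32) _ _ _ _ _ _ _ _ := s.ru g okX13_38 p13_36_0
  have s : St _ β _ _ (1716 * 32) _ _ _ _ _ _ _ _ := s.ru g okX13_38 p13_37_0
  have s : St _ β _ _ (1751 * 32) _ _ _ _ _ _ _ _ := s.ru g okX13_38 p13_38_0
  have s : St _ β _ _ (1783 * 32) _ _ _ _ _ _ _ _ := s.ru g okX13_38 p13_39_0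
  have s : St _ β _ _ (1824 * 32) _ _ _ _ _ _ _ _ := s.ru g okX13_38 p13_40_0
  have s : St _ β _ _ (1861 * 32) _ _ _ _ _ _ _ _ := s.ru g okX13_38 p13_41_0
  have s : St _ β _ _ (1890 * 32) _ _ _ _ _ _ _ _ := s.ru g okX13_38 p13_42_0
  have s : St _ β _ _ (1919 * 32) _ _ _ _ _ _ _ _ := s.ru g okX13_38 p13_43_0
  have s : St _ β _ _ (1952 * 32) _ _ _ _ _ _ _ _ := s.ru g okX13_38 p13_44_0
  have s : St _ β _ _ (1982 * 32) _ _ _ _ _ _ _ _ := s.ru g okX13_38 p13_45_0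
  have s : St _ β _ _ (2010 * 32) _ _ _ _ _ _ _ _ := s.ru g okX13_38 p13_46_0
  have s : St _ β _ _ (2039 * 32) _ _ _ _ _ _ _ _ := s.ru g okX13_38 p13_47_0
  have s : St _ β _ _ (2068 * 32) _ _ _ _ _ _ _ _ := s.ru g okX13_38 p13_48_0
  have s : St _ β _ _ (2090 * 32) _ _ _ _ _ _ _ _ := s.ru g okX13_38 p13_49_0
  have s : St _ β _ _ (2107 * 32) _ _ _ _ _ _ _ _ := s.ru g okX13_38 p13_50_0
  have s : St _ β _ _ (2130 * 32) _ _ _ _ _ _ _ _ := s.ru g okX13_38 p13_51_0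
  have s : St _ β _ _ (2152 * 32) _ _ _ _ _ _ _ _ := s.ru g okX13_38 p13_52_0
  have s : St _ β _ _ (2174 * 32) _ _ _ _ _ _ _ _ := s.ru g okX13_38 p13_53_0
  have s : St _ β _ _ (2191 * 32) _ _ _ _ _ _ _ _ := s.ru g okX13_38 p13_54_0
  have s : St _ β _ _ (2221 * 32) _ _ _ _ _ _ _ _ := s.ru g okX13_38 p13_55_0
  have s : St _ β _ _ (2245 * 32) _ _ _ _ _ _ _ _ := s.ru g okX13_38 p13_56_0
  have s : St _ β _ _ (2263 * 32) _ _ _ _ _ _ _ _ := s.ru g okX13_38 p13_57_0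
  have s : St _ β _ _ (2278 * 32) _ _ _ _ _ _ _ _ := s.ru g okX13_38 p13_58_0
  have s : St _ β _ _ (2280 * 32) _ _ _ _ _ _ _ _ := s.ru g okX13_38 p13_59_0
  have s : St _ β _ _ (2280 * 32) _ _ _ _ _ _ _ _ := s.rnz (i := 72960) g r13_59_1 ⟨by norm_num, c⟩
  have s : St _ β _ _ (2280 * 32) _ _ _ _ _ _ _ _ := s.rnz (i := 72960) g r13_59_2 ⟨by norm_num, c⟩
  have s : St _ β _ _ (2280 * 32) _ _ _ _ _ _ _ _ := s.rnz (i := 72960) g r13_59_3 ⟨by norm_num, c⟩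
  have s : St _ β _ _ (2280 * 32) _ _ _ _ _ _ _ _ := s.rnz (i := 72960) g r13_59_4 ⟨by norm_num, c⟩
  have s : St _ β _ _ (2280 * 32) _ _ _ _ _ _ _ _ := s.rnz (i := 72960) g r13_59_5 ⟨by norm_num, c⟩
  have s : St _ β _ _ (2280 * 32) _ _ _ _ _ _ _ _ := s.rnz (i := 72960) g r13_59_6 ⟨by norm_num, c⟩
  have s : St _ β _ _ (2280 * 32) _ _ _ _ _ _ _ _ := s.rnz (i := 72960) g r13_60_0 ⟨by norm_num, c⟩
  have s : St _ β _ _ (2280 * 32) _ _ _ _ _ _ _ _ := s.rnz (i := 72960) g r13_60_1 ⟨by norm_num, c⟩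
  have s : St _ β _ _ (2280 * 32) _ _ _ _ _ _ _ _ := s.rnz (i := 72960) g r13_60_2 ⟨by norm_num, c⟩
  have s : St _ β _ _ (2280 * 32) _ _ _ _ _ _ _ _ := s.rnz (i := 72960) g r13_60_3 ⟨by norm_num, c⟩
  have s : St _ β _ _ (2280 * 32) _ _ _ _ _ _ _ _ := s.rnz (i := 72960) g r13_60_4 ⟨by norm_num, c⟩
  have s : St _ β _ _ (2280 * 32) _ _ _ _ _ _ _ _ := s.rnz (i := 72960) g r13_60_5 ⟨by norm_num, c⟩
  have s : St _ β _ _ (2280 * 32) _ _ _ _ _ _ _ _ := s.rnz (i := 72960) g r13_60_6 ⟨by norm_num, c⟩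
  have s : St _ β _ _ (2280 * 32) _ _ _ _ _ _ _ _ := s.rnz (i := 72960) g r13_61_0 ⟨by norm_num, c⟩
  have s : St _ β _ _ (2280 * 32) _ _ _ _ _ _ _ _ := s.rnz (i := 72960) g r13_61_1 ⟨by norm_num, c⟩
  have s : St _ β _ _ (2280 * 32) _ _ _ _ _ _ _ _ := s.rnz (i := 72960) g r13_61_2 ⟨by norm_num, c⟩
  have s : St _ β _ _ (2280 * 32) _ _ _ _ _ _ _ _ := s.rnz (i := 72960) g r13_61_3 ⟨by norm_num, c⟩
  have s : St _ β _ _ (2280 * 32) _ _ _ _ _ _ _ _ := s.rnz (i := 72960) g r13_61_4 ⟨by norm_num, c⟩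
  have s : St _ β _ _ (2280 * 32) _ _ _ _ _ _ _ _ := s.rnz (i := 72960) g r13_61_5 ⟨by norm_num, c⟩
  have s : St _ β _ _ (2280 * 32) _ _ _ _ _ _ _ _ := s.rnz (i := 72960) g r13_62_0 ⟨by norm_num, c⟩
  have s : St _ β _ _ (2280 * 32) _ _ _ _ _ _ _ _ := s.rnz (i := 72960) g r13_62_1 ⟨by norm_num, c⟩
  have s : St _ β _ _ (2280 * 32) _ _ _ _ _ _ _ _ := s.rnz (i := 72960) g r13_62_2 ⟨by norm_num, c⟩
  have s : St _ β _ _ (2280 * 32) _ _ _ _ _ _ _ _ := s.rnz (i := 72960) g r13_62_3 ⟨by norm_num, c⟩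
  have s : St _ β _ _ (2280 * 32) _ _ _ _ _ _ _ _ := s.rnz (i := 72960) g r13_62_4 ⟨by norm_num, c⟩
  have s : St _ β _ _ (2280 * 32) _ _ _ _ _ _ _ _ := s.rnz (i := 72960) g r13_62_5 ⟨by norm_num, c⟩
  have s : St _ β _ _ (2280 * 32) _ _ _ _ _ _ _ _ := s.rnz (i := 72960) g r13_63_0 ⟨by norm_num, c⟩
  have s : St _ β _ _ (2280 * 32) _ _ _ _ _ _ _ _ := s.rnz (i := 72960) g r13_63_1 ⟨by norm_num, c⟩
  have s : St _ β _ _ (2280 * 32) _ _ _ _ _ _ _ _ := s.rnz (i := 72960) g r13_63_2 ⟨by norm_num, c⟩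
  have s : St _ β _ _ (2280 * 32) _ _ _ _ _ _ _ _ := s.rnz (i := 72960) g r13_63_3 ⟨by norm_num, c⟩
  have s : St _ β _ _ (2280 * 32) _ _ _ _ _ _ _ _ := s.rnz (i := 72960) g r13_63_4 ⟨by norm_num, c⟩
  have s : St _ β _ _ (2280 * 32) _ _ _ _ _ _ _ _ := s.rnz (i := 72960) g r13_63_5 ⟨by norm_num, c⟩
  have s : St _ β _ _ (2280 * 32) _ _ _ _ _ _ _ _ := s.rnz (i := 72960) g r13_63_6 ⟨by norm_num, c⟩
  have s : St _ β _ _ (2280 * 32) _ _ _ _ _ _ _ _ := s.rnz (i := 72960) g r13_64_0 ⟨by norm_num, c⟩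
  have s : St _ β _ _ (2369 * 32) _ _ _ _ _ _ _ _ := s.ru g okX13_79 p13_64_1
  have s : St _ β _ _ (2434 * 32) _ _ _ _ _ _ _ _ := s.ru g okX13_79 p13_65_0
  have s : St _ β _ _ (2489 * 32) _ _ _ _ _ _ _ _ := s.ru g okX13_79 p13_66_0
  have s : St _ β _ _ (2538 * 32) _ _ _ _ _ _ _ _ := s.ru g okX13_79 p13_67_0
  have s : St _ β _ _ (2590 * 32) _ _ _ _ _ _ _ _ := s.ru g okX13_79 p13_68_0
  have s : St _ β _ _ (2638 * 32) _ _ _ _ _ _ _ _ := s.ru g okX13_79 p13_69_0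
  have s : St _ β _ _ (2677 * 32) _ _ _ _ _ _ _ _ := s.ru g okX13_79 p13_70_0
  have s : St _ β _ _ (2710 * 32) _ _ _ _ _ _ _ _ := s.ru g okX13_79 p13_71_0
  have s : St _ β _ _ (2735 * 32) _ _ _ _ _ _ _ _ := s.ru g okX13_79 p13_72_0
  have s : St _ β _ _ (2764 * 32) _ _ _ _ _ _ _ _ := s.ru g okX13_79 p13_73_0
  have s : St _ β _ _ (2788 * 32) _ _ _ _ _ _ _ _ := s.ru g okX13_79 p13_74_0
  have s : St _ β _ _ (2813 * 32) _ _ _ _ _ _ _ _ := s.ru g okX13_79 p13_75_0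
  have s : St _ β _ _ (2822 * 32) _ _ _ _ _ _ _ _ := s.ru g okX13_79 p13_76_0
  have s : St _ β _ _ (2822 * 32) _ _ _ _ _ _ _ _ := s.rnz (i := 90304) g r13_76_5 ⟨by norm_num, c⟩
  have s : St _ β _ _ (2822 * 32) _ _ _ _ _ _ _ _ := s.rnz (i := 90304) g r13_76_6 ⟨by norm_num, c⟩
  have s : St _ β _ _ (2822 * 32) _ _ _ _ _ _ _ _ := s.rnz (i := 90304) g r13_76_7 ⟨by norm_num, c⟩
  have s : St _ β _ _ (2822 * 32) _ _ _ _ _ _ _ _ := s.rnz (i := 90304) g r13_77_0 ⟨by norm_num, c⟩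
  have s : St _ β _ _ (2822 * 32) _ _ _ _ _ _ _ _ := s.rnz (i := 90304) g r13_77_1 ⟨by norm_num, c⟩
  have s : St _ β _ _ (2822 * 32) _ _ _ _ _ _ _ _ := s.rnz (i := 90304) g r13_77_2 ⟨by norm_num, c⟩
  have s : St _ β _ _ (2822 * 32) _ _ _ _ _ _ _ _ := s.rnz (i := 90304) g r13_77_3 ⟨by norm_num, c⟩
  have s : St _ β _ _ (2822 * 32) _ _ _ _ _ _ _ _ := s.rnz (i := 90304) g r13_77_4 ⟨by norm_num, c⟩
  have s : St _ β _ _ (2822 * 32) _ _ _ _ _ _ _ _ := s.rnz (i := 90304) g r13_77_5 ⟨by norm_num, c⟩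
  have s : St _ β _ _ (2822 * 32) _ _ _ _ _ _ _ _ := s.rnz (i := 90304) g r13_77_6 ⟨by norm_num, c⟩
  have s : St _ β _ _ (2822 * 32) _ _ _ _ _ _ _ _ := s.rnz (i := 90304) g r13_78_0 ⟨by norm_num, c⟩
  have s : St _ β _ _ (2822 * 32) _ _ _ _ _ _ _ _ := s.rnz (i := 90304) g r13_78_1 ⟨by norm_num, c⟩
  have s : St _ β _ _ (2822 * 32) _ _ _ _ _ _ _ _ := s.rnz (i := 90304) g r13_78_2 ⟨by norm_num, c⟩
  have s : St _ β _ _ (2822 * 32) _ _ _ _ _ _ _ _ := s.rnz (i := 90304) g r13_78_3 ⟨by norm_num, c⟩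
  have s : St _ β _ _ (2822 * 32) _ _ _ _ _ _ _ _ := s.rnz (i := 90304) g r13_78_4 ⟨by norm_num, c⟩
  have s : St _ β _ _ (2822 * 32) _ _ _ _ _ _ _ _ := s.rnz (i := 90304) g r13_78_5 ⟨by norm_num, c⟩
  have s : St _ β _ _ (2822 * 32) _ _ _ _ _ _ _ _ := s.rnz (i := 90304) g r13_79_0 ⟨by norm_num, c⟩
  have s : St _ β _ _ (2902 * 32) _ _ _ _ _ _ _ _ := s.ru g okX13_102 p13_79_1
  have s : St _ β _ _ (2953 * 32) _ _ _ _ _ _ _ _ := s.ru g okX13_102 p13_80_0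
  have s : St _ β _ _ (2997 * 32) _ _ _ _ _ _ _ _ := s.ru g okX13_102 p13_81_0
  have s : St _ β _ _ (3034 * 32) _ _ _ _ _ _ _ _ := s.ru g okX13_102 p13_82_0
  have s : St _ β _ _ (3073 * 32) _ _ _ _ _ _ _ _ := s.ru g okX13_102 p13_83_0
  have s : St _ β _ _ (3107 * 32) _ _ _ _ _ _ _ _ := s.ru g okX13_102 p13_84_0
  have s : St _ β _ _ (3139 * 32) _ _ _ _ _ _ _ _ := s.ru g okX13_102 p13_85_0
  have s : St _ β _ _ (3181 * 32) _ _ _ _ _ _ _ _ := s.ru g okX13_102 p13_86_0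
  have s : St _ β _ _ (3214 * 32) _ _ _ _ _ _ _ _ := s.ru g okX13_102 p13_87_0
  have s : St _ β _ _ (3247 * 32) _ _ _ _ _ _ _ _ := s.ru g okX13_102 p13_88_0
  have s : St _ β _ _ (3277 * 32) _ _ _ _ _ _ _ _ := s.ru g okX13_102 p13_89_0
  have s : St _ β _ _ (3302 * 32) _ _ _ _ _ _ _ _ := s.ru g okX13_102 p13_90_0
  have s : St _ β _ _ (3328 * 32) _ _ _ _ _ _ _ _ := s.ru g okX13_102 p13_91_0
  have s : St _ β _ _ (3348 * 32) _ _ _ _ _ _ _ _ := s.ru g okX13_102 p13_92_0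
  have s : St _ β _ _ (3350 * 32) _ _ _ _ _ _ _ _ := s.ru g okX13_102 p13_93_0
  have s : St _ β _ _ (3350 * 32) _ _ _ _ _ _ _ _ := s.rnz (i := 107200) g r13_93_1 ⟨by norm_num, c⟩
  have s : St _ β _ _ (3350 * 32) _ _ _ _ _ _ _ _ := s.rnz (i := 107200) g r13_93_2 ⟨by norm_num, c⟩
  have s : St _ β _ _ (3350 * 32) _ _ _ _ _ _ _ _ := s.rnz (i := 107200) g r13_93_3 ⟨by norm_num, c⟩
  have s : St _ β _ _ (3350 * 32) _ _ _ _ _ _ _ _ := s.rnz (i := 107200) g r13_93_4 ⟨by norm_num, c⟩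
  have s : St _ β _ _ (3350 * 32) _ _ _ _ _ _ _ _ := s.rnz (i := 107200) g r13_93_5 ⟨by norm_num, c⟩
  have s : St _ β _ _ (3350 * 32) _ _ _ _ _ _ _ _ := s.rnz (i := 107200) g r13_93_6 ⟨by norm_num, c⟩
  have s : St _ β _ _ (3350 * 32) _ _ _ _ _ _ _ _ := s.rnz (i := 107200) g r13_94_0 ⟨by norm_num, c⟩
  have s : St _ β _ _ (3350 * 32) _ _ _ _ _ _ _ _ := s.rnz (i := 107200) g r13_94_1 ⟨by norm_num, c⟩
  have s : St _ β _ _ (3350 * 32) _ _ _ _ _ _ _ _ := s.rnz (i := 107200) g r13_94_2 ⟨by norm_num, c⟩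
  have s : St _ β _ _ (3350 * 32) _ _ _ _ _ _ _ _ := s.rnz (i := 107200) g r13_94_3 ⟨by norm_num, c⟩
  have s : St _ β _ _ (3350 * 32) _ _ _ _ _ _ _ _ := s.rnz (i := 107200) g r13_94_4 ⟨by norm_num, c⟩
  have s : St _ β _ _ (3350 * 32) _ _ _ _ _ _ _ _ := s.rnz (i := 107200) g r13_94_5 ⟨by norm_num, c⟩
  have s : St _ β _ _ (3350 * 32) _ _ _ _ _ _ _ _ := s.rnz (i := 107200) g r13_94_6 ⟨by norm_num, c⟩
  have s : St _ β _ _ (3350 * 32) _ _ _ _ _ _ _ _ := s.rnz (i := 107200) g r13_95_0 ⟨by norm_num, c⟩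
  have s : St _ β _ _ (3418 * 32) _ _ _ _ _ _ _ _ := s.ru g okX13_120 p13_95_1
  have s : St _ β _ _ (3475 * 32) _ _ _ _ _ _ _ _ := s.ru g okX13_120 p13_96_0
  have s : St _ β _ _ (3525 * 32) _ _ _ _ _ _ _ _ := s.ru g okX13_120 p13_97_0
  have s : St _ β _ _ (3567 * 32) _ _ _ _ _ _ _ _ := s.ru g okX13_120 p13_98_0
  have s : St _ β _ _ (3611 * 32) _ _ _ _ _ _ _ _ := s.ru g okX13_120 p13_99_0
  have s : St _ β _ _ (3651 * 32) _ _ _ _ _ _ _ _ := s.ru g okX13_120 p13_100_0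
  have s : St _ β _ _ (3688 * 32) _ _ _ _ _ _ _ _ := s.ru g okX13_120 p13_101_0
  have s : St _ β _ _ (3716 * 32) _ _ _ _ _ _ _ _ := s.ru g okX13_120 p13_102_0
  have s : St _ β _ _ (3745 * 32) _ _ _ _ _ _ _ _ := s.ru g okX13_120 p13_103_0
  have s : St _ β _ _ (3767 * 32) _ _ _ _ _ _ _ _ := s.ru g okX13_120 p13_104_0
  have s : St _ β _ _ (3795 * 32) _ _ _ _ _ _ _ _ := s.ru g okX13_120 p13_105_0
  have s : St _ β _ _ (3799 * 32) _ _ _ _ _ _ _ _ := s.ru g okX13_120 p13_106_0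
  have s : St _ β _ _ (3799 * 32) _ _ _ _ _ _ _ _ := s.rnz (i := 121568) g r13_106_2 ⟨by norm_num, c⟩
  have s : St _ β _ _ (3799 * 32) _ _ _ _ _ _ _ _ := s.rnz (i := 121568) g r13_106_3 ⟨by norm_num, c⟩
  have s : St _ β _ _ (3799 * 32) _ _ _ _ _ _ _ _ := s.rnz (i := 121568) g r13_106_4 ⟨by norm_num, c⟩
  have s : St _ β _ _ (3799 * 32) _ _ _ _ _ _ _ _ := s.rnz (i := 121568) g r13_106_5 ⟨by norm_num, c⟩
  have s : St _ β _ _ (3799 * 32) _ _ _ _ _ _ _ _ := s.rnz (i := 121568) g r13_106_6 ⟨by norm_num, c⟩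
  have s : St _ β _ _ (3799 * 32) _ _ _ _ _ _ _ _ := s.rnz (i := 121568) g r13_107_0 ⟨by norm_num, c⟩
  have s : St _ β _ _ (3799 * 32) _ _ _ _ _ _ _ _ := s.rnz (i := 121568) g r13_107_1 ⟨by norm_num, c⟩
  have s : St _ β _ _ (3799 * 32) _ _ _ _ _ _ _ _ := s.rnz (i := 121568) g r13_107_2 ⟨by norm_num, c⟩
  have s : St _ β _ _ (3799 * 32) _ _ _ _ _ _ _ _ := s.rnz (i := 121568) g r13_107_3 ⟨by norm_num, c⟩
  have s : St _ β _ _ (3799 * 32) _ _ _ _ _ _ _ _ := s.rnz (i := 121568) g r13_107_4 ⟨by norm_num, c⟩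
  have s : St _ β _ _ (3817 * 32) _ _ _ _ _ _ _ _ := s.ru g okX13_132 p13_107_5
  have s : St _ β _ _ (3889 * 32) _ _ _ _ _ _ _ _ := s.ru g okX13_132 p13_108_0
  have s : St _ β _ _ (3941 * 32) _ _ _ _ _ _ _ _ := s.ru g okX13_132 p13_109_0
  have s : St _ β _ _ (3991 * 32) _ _ _ _ _ _ _ _ := s.ru g okX13_132 p13_110_0
  have s : St _ β _ _ (4038 * 32) _ _ _ _ _ _ _ _ := s.ru g okX13_132 p13_111_0
  have s : St _ β _ _ (4074 * 32) _ _ _ _ _ _ _ _ := s.ru g okX13_132 p13_112_0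
  have s : St _ β _ _ (4087 * 32) _ _ _ _ _ _ _ _ := s.ru g okX13_132 p13_113_0
  have s : St _ β _ H13_1 (1188 * 32) _ _ _ _ _ _ _ _ := s.cpy (i := 130784) cp13_1
  have s : St _ β _ _ (1217 * 32) _ _ _ _ _ _ _ _ := s.ru g okX13_132 p13_114_0
  have s : St _ β _ _ (1243 * 32) _ _ _ _ _ _ _ _ := s.ru g okX13_132 p13_115_0
  have s : St _ β _ _ (1269 * 32) _ _ _ _ _ _ _ _ := s.ru g okX13_132 p13_116_0
  have s : St _ β _ _ (1297 * 32) _ _ _ _ _ _ _ _ := s.ru g okX13_132 p13_117_0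
  have s : St _ β _ _ (1304 * 32) _ _ _ _ _ _ _ _ := s.ru g okX13_132 p13_118_0
  have s : St _ β _ _ (1304 * 32) _ _ _ _ _ _ _ _ := s.rnz (i := 41728) g r13_118_3 ⟨by norm_num, c⟩
  have s : St _ β _ _ (1304 * 32) _ _ _ _ _ _ _ _ := s.rnz (i := 41728) g r13_118_4 ⟨by norm_num, c⟩
  have s : St _ β _ _ (1304 * 32) _ _ _ _ _ _ _ _ := s.rnz (i := 41728) g r13_118_5 ⟨by norm_num, c⟩
  have s : St _ β _ _ (1304 * 32) _ _ _ _ _ _ _ _ := s.rnz (i := 41728) g r13_118_6 ⟨by norm_num, c⟩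
  have s : St _ β _ _ (1304 * 32) _ _ _ _ _ _ _ _ := s.rnz (i := 41728) g r13_118_7 ⟨by norm_num, c⟩
  have s : St _ β _ _ (1304 * 32) _ _ _ _ _ _ _ _ := s.rnz (i := 41728) g r13_119_0 ⟨by norm_num, c⟩
  have s : St _ β _ _ (1304 * 32) _ _ _ _ _ _ _ _ := s.rnz (i := 41728) g r13_119_1 ⟨by norm_num, c⟩
  have s : St _ β _ _ (1304 * 32) _ _ _ _ _ _ _ _ := s.rnz (i := 41728) g r13_119_2 ⟨by norm_num, c⟩
  have s : St _ β _ _ (1304 * 32) _ _ _ _ _ _ _ _ := s.rnz (i := 41728) g r13_119_3 ⟨by norm_num, c⟩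
  have s : St _ β _ _ (1335 * 32) _ _ _ _ _ _ _ _ := s.ru g okX13_144 p13_119_4
  have s : St _ β _ _ (1401 * 32) _ _ _ _ _ _ _ _ := s.ru g okX13_144 p13_120_0
  have s : St _ β _ _ (1452 * 32) _ _ _ _ _ _ _ _ := s.ru g okX13_144 p13_121_0
  have s : St _ β _ _ (1499 * 32) _ _ _ _ _ _ _ _ := s.ru g okX13_144 p13_122_0
  have s : St _ β _ _ (1549 * 32) _ _ _ _ _ _ _ _ := s.ru g okX13_144 p13_123_0
  have s : St _ β _ _ (1589 * 32) _ _ _ _ _ _ _ _ := s.ru g okX13_144 p13_124_0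
  have s : St _ β _ _ (1618 * 32) _ _ _ _ _ _ _ _ := s.ru g okX13_144 p13_125_0
  have s : St _ β _ _ (1649 * 32) _ _ _ _ _ _ _ _ := s.ru g okX13_144 p13_126_0
  have s : St _ β _ _ (1669 * 32) _ _ _ _ _ _ _ _ := s.ru g okX13_144 p13_127_0
  have s : St _ β _ _ (1700 * 32) _ _ _ _ _ _ _ _ := s.ru g okX13_144 p13_128_0
  have s : St _ β _ _ (1704 * 32) _ _ _ _ _ _ _ _ := s.ru g okX13_144 p13_129_0
  have s : St _ β _ _ (1704 * 32) _ _ _ _ _ _ _ _ := s.rnz (i := 54528) g r13_129_2 ⟨by norm_num, c⟩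
  have s : St _ β _ _ (1704 * 32) _ _ _ _ _ _ _ _ := s.rnz (i := 54528) g r13_129_3 ⟨by norm_num, c⟩
  have s : St _ β _ _ (1704 * 32) _ _ _ _ _ _ _ _ := s.rnz (i := 54528) g r13_129_4 ⟨by norm_num, c⟩
  have s : St _ β _ _ (1704 * 32) _ _ _ _ _ _ _ _ := s.rnz (i := 54528) g r13_129_5 ⟨by norm_num, c⟩
  have s : St _ β _ _ (1704 * 32) _ _ _ _ _ _ _ _ := s.rnz (i := 54528) g r13_129_6 ⟨by norm_num, c⟩
  have s : St _ β _ _ (1704 * 32) _ _ _ _ _ _ _ _ := s.rnz (i := 54528) g r13_130_0 ⟨by norm_num, c⟩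
  have s : St _ β _ _ (1704 * 32) _ _ _ _ _ _ _ _ := s.rnz (i := 54528) g r13_130_1 ⟨by norm_num, c⟩
  have s : St _ β _ _ (1704 * 32) _ _ _ _ _ _ _ _ := s.rnz (i := 54528) g r13_130_2 ⟨by norm_num, c⟩
  have s : St _ β _ _ (1704 * 32) _ _ _ _ _ _ _ _ := s.rnz (i := 54528) g r13_130_3 ⟨by norm_num, c⟩
  have s : St _ β _ _ (1704 * 32) _ _ _ _ _ _ _ _ := s.rnz (i := 54528) g r13_130_4 ⟨by norm_num, c⟩
  have s : St _ β _ _ (1704 * 32) _ _ _ _ _ _ _ _ := s.rnz (i := 54528) g r13_130_5 ⟨by norm_num, c⟩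
  have s : St _ β _ _ (1704 * 32) _ _ _ _ _ _ _ _ := s.rnz (i := 54528) g r13_131_0 ⟨by norm_num, c⟩
  have s : St _ β _ _ (1775 * 32) _ _ _ _ _ _ _ _ := s.ru g okX13_159 p13_131_1
  have s : St _ β _ _ (1831 * 32) _ _ _ _ _ _ _ _ := s.ru g okX13_159 p13_132_0
  have s : St _ β _ _ (1889 * 32) _ _ _ _ _ _ _ _ := s.ru g okX13_159 p13_133_0
  have s : St _ β _ _ (1934 * 32) _ _ _ _ _ _ _ _ := s.ru g okX13_159 p13_134_0
  have s : St _ β _ _ (1970 * 32) _ _ _ _ _ _ _ _ := s.ru g okX13_159 p13_135_0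
  have s : St _ β _ _ (2001 * 32) _ _ _ _ _ _ _ _ := s.ru g okX13_159 p13_136_0
  have s : St _ β _ _ (2030 * 32) _ _ _ _ _ _ _ _ := s.ru g okX13_159 p13_137_0
  have s : St _ β _ _ (2056 * 32) _ _ _ _ _ _ _ _ := s.ru g okX13_159 p13_138_0
  have s : St _ β _ _ (2066 * 32) _ _ _ _ _ _ _ _ := s.ru g okX13_159 p13_139_0
  have s : St _ β _ _ (2066 * 32) _ _ _ _ _ _ _ _ := s.rnz (i := 66112) g r13_139_6 ⟨by norm_num, c⟩
  have s : St _ β _ _ (2066 * 32) _ _ _ _ _ _ _ _ := s.rnz (i := 66112) g r13_139_7 ⟨by norm_num, c⟩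
  have s : St _ β _ _ (2066 * 32) _ _ _ _ _ _ _ _ := s.rnz (i := 66112) g r13_139_8 ⟨by norm_num, c⟩
  have s : St _ β _ _ (2066 * 32) _ _ _ _ _ _ _ _ := s.rnz (i := 66112) g r13_139_9 ⟨by norm_num, c⟩
  have s : St _ β _ _ (2066 * 32) _ _ _ _ _ _ _ _ := s.rnz (i := 66112) g r13_140_0 ⟨by norm_num, c⟩
  have s : St _ β _ _ (2066 * 32) _ _ _ _ _ _ _ _ := s.rnz (i := 66112) g r13_140_1 ⟨by norm_num, c⟩
  have s : St _ β _ _ (2066 * 32) _ _ _ _ _ _ _ _ := s.rnz (i := 66112) g r13_140_2 ⟨by norm_num, c⟩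
  have s : St _ β _ _ (2066 * 32) _ _ _ _ _ _ _ _ := s.rnz (i := 66112) g r13_140_3 ⟨by norm_num, c⟩
  have s : St _ β _ _ (2066 * 32) _ _ _ _ _ _ _ _ := s.rnz (i := 66112) g r13_140_4 ⟨by norm_num, c⟩
  have s : St _ β _ _ (2066 * 32) _ _ _ _ _ _ _ _ := s.rnz (i := 66112) g r13_140_5 ⟨by norm_num, c⟩
  have s : St _ β _ _ (2069 * 32) _ _ _ _ _ _ _ _ := s.ru g okX13_172 p13_140_6
  have s : St _ β _ _ (2145 * 32) _ _ _ _ _ _ _ _ := s.ru g okX13_172 p13_141_0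
  have s : St _ β _ _ (2197 * 32) _ _ _ _ _ _ _ _ := s.ru g okX13_172 p13_142_0
  have s : St _ β _ _ (2249 * 32) _ _ _ _ _ _ _ _ := s.ru g okX13_172 p13_143_0
  have s : St _ β _ _ (2295 * 32) _ _ _ _ _ _ _ _ := s.ru g okX13_172 p13_144_0
  have s : St _ β _ _ (2342 * 32) _ _ _ _ _ _ _ _ := s.ru g okX13_172 p13_145_0
  have s : St _ β _ _ (2386 * 32) _ _ _ _ _ _ _ _ := s.ru g okX13_172 p13_146_0
  have s : St _ β _ _ (2419 * 32) _ _ _ _ _ _ _ _ := s.ru g okX13_172 p13_147_0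
  have s : St _ β _ _ (2449 * 32) _ _ _ _ _ _ _ _ := s.ru g okX13_172 p13_148_0
  have s : St _ β _ _ (2477 * 32) _ _ _ _ _ _ _ _ := s.ru g okX13_172 p13_149_0
  have s : St _ β _ _ (2507 * 32) _ _ _ _ _ _ _ _ := s.ru g okX13_172 p13_150_0
  have s : St _ β _ _ (2530 * 32) _ _ _ _ _ _ _ _ := s.ru g okX13_172 p13_151_0
  have s : St _ β _ _ (2530 * 32) _ _ _ _ _ _ _ _ := s.rnz (i := 80960) g r13_151_10 ⟨by norm_num, c⟩
  have s : St _ β _ _ (2530 * 32) _ _ _ _ _ _ _ _ := s.rnz (i := 80960) g r13_151_11 ⟨by norm_num, c⟩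
  have s : St _ β _ _ (2530 * 32) _ _ _ _ _ _ _ _ := s.rnz (i := 80960) g r13_152_0 ⟨by norm_num, c⟩
  have s : St _ β _ _ (2530 * 32) _ _ _ _ _ _ _ _ := s.rnz (i := 80960) g r13_152_1 ⟨by norm_num, c⟩
  have s : St _ β _ _ (2530 * 32) _ _ _ _ _ _ _ _ := s.rnz (i := 80960) g r13_152_2 ⟨by norm_num, c⟩
  have s : St _ β _ _ (2530 * 32) _ _ _ _ _ _ _ _ := s.rnz (i := 80960) g r13_152_3 ⟨by norm_num, c⟩
  have s : St _ β _ _ (2530 * 32) _ _ _ _ _ _ _ _ := s.rnz (i := 80960) g r13_152_4 ⟨by norm_num, c⟩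
  have s : St _ β _ _ (2530 * 32) _ _ _ _ _ _ _ _ := s.rnz (i := 80960) g r13_152_5 ⟨by norm_num, c⟩
  have s : St _ β _ _ (2530 * 32) _ _ _ _ _ _ _ _ := s.rnz (i := 80960) g r13_153_0 ⟨by norm_num, c⟩
  have s : St _ β _ _ (2530 * 32) _ _ _ _ _ _ _ _ := s.rnz (i := 80960) g r13_153_1 ⟨by norm_num, c⟩
  have s : St _ β _ _ (2530 * 32) _ _ _ _ _ _ _ _ := s.rnz (i := 80960) g r13_153_2 ⟨by norm_num, c⟩
  have s : St _ β _ _ (2530 * 32) _ _ _ _ _ _ _ _ := s.rnz (i := 80960) g r13_153_3 ⟨by norm_num, c⟩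
  have s : St _ β _ _ (2530 * 32) _ _ _ _ _ _ _ _ := s.rnz (i := 80960) g r13_153_4 ⟨by norm_num, c⟩
  have s : St _ β _ _ (2530 * 32) _ _ _ _ _ _ _ _ := s.rnz (i := 80960) g r13_153_5 ⟨by norm_num, c⟩
  have s : St _ β _ _ (2530 * 32) _ _ _ _ _ _ _ _ := s.rnz (i := 80960) g r13_153_6 ⟨by norm_num, c⟩
  have s : St _ β _ _ (2530 * 32) _ _ _ _ _ _ _ _ := s.rnz (i := 80960) g r13_154_0 ⟨by norm_num, c⟩
  have s : St _ β _ _ (2530 * 32) _ _ _ _ _ _ _ _ := s.rnz (i := 80960) g r13_154_1 ⟨by norm_num, c⟩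
  have s : St _ β _ _ (2530 * 32) _ _ _ _ _ _ _ _ := s.rnz (i := 80960) g r13_154_2 ⟨by norm_num, c⟩
  have s : St _ β _ _ (2580 * 32) _ _ _ _ _ _ _ _ := s.ru g okX13_198 p13_154_3
  have s : St _ β _ _ (2648 * 32) _ _ _ _ _ _ _ _ := s.ru g okX13_198 p13_155_0
  have s : St _ β _ _ (2719 * 32) _ _ _ _ _ _ _ _ := s.ru g okX13_198 p13_156_0
  have s : St _ β _ _ (2775 * 32) _ _ _ _ _ _ _ _ := s.ru g okX13_198 p13_157_0
  have s : St _ β _ _ (2817 * 32) _ _ _ _ _ _ _ _ := s.ru g okX13_198 p13_158_0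
  have s : St _ β _ _ (2857 * 32) _ _ _ _ _ _ _ _ := s.ru g okX13_198 p13_159_0
  have s : St _ β _ _ (2884 * 32) _ _ _ _ _ _ _ _ := s.ru g okX13_198 p13_160_0
  have s : St _ β _ _ (2884 * 32) _ _ _ _ _ _ _ _ := s.rnz (i := 92288) g r13_160_12 ⟨by norm_num, c⟩
  have s : St _ β _ _ (2884 * 32) _ _ _ _ _ _ _ _ := s.rnz (i := 92288) g r13_160_13 ⟨by norm_num, c⟩
  have s : St _ β _ _ (2884 * 32) _ _ _ _ _ _ _ _ := s.rnz (i := 92288) g r13_161_0 ⟨by norm_num, c⟩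
  have s : St _ β _ _ (2884 * 32) _ _ _ _ _ _ _ _ := s.rnz (i := 92288) g r13_161_1 ⟨by norm_num, c⟩
  have s : St _ β _ _ (2884 * 32) _ _ _ _ _ _ _ _ := s.rnz (i := 92288) g r13_161_2 ⟨by norm_num, c⟩
  have s : St _ β _ _ (2884 * 32) _ _ _ _ _ _ _ _ := s.rnz (i := 92288) g r13_161_3 ⟨by norm_num, c⟩
  have s : St _ β _ _ (2884 * 32) _ _ _ _ _ _ _ _ := s.rnz (i := 92288) g r13_161_4 ⟨by norm_num, c⟩
  have s : St _ β _ _ (2892 * 32) _ _ _ _ _ _ _ _ := s.ru g okX13_209 p13_161_5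
  have s : St _ β _ _ (2967 * 32) _ _ _ _ _ _ _ _ := s.ru g okX13_209 p13_162_0
  have s : St _ β _ _ (3027 * 32) _ _ _ _ _ _ _ _ := s.ru g okX13_209 p13_163_0
  have s : St _ β _ _ (3085 * 32) _ _ _ _ _ _ _ _ := s.ru g okX13_209 p13_164_0
  have s : St _ β _ _ (3135 * 32) _ _ _ _ _ _ _ _ := s.ru g okX13_209 p13_165_0
  have s : St _ β _ _ (3187 * 32) _ _ _ _ _ _ _ _ := s.ru g okX13_209 p13_166_0
  have s : St _ β _ _ (3229 * 32) _ _ _ _ _ _ _ _ := s.ru g okX13_209 p13_167_0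
  have s : St _ β _ _ (3272 * 32) _ _ _ _ _ _ _ _ := s.ru g okX13_209 p13_168_0
  have s : St _ β _ _ (3312 * 32) _ _ _ _ _ _ _ _ := s.ru g okX13_209 p13_169_0
  have s : St _ β _ _ (3347 * 32) _ _ _ _ _ _ _ _ := s.ru g okX13_209 p13_170_0
  have s : St _ β _ _ (3382 * 32) _ _ _ _ _ _ _ _ := s.ru g okX13_209 p13_171_0
  have s : St _ β _ _ (3391 * 32) _ _ _ _ _ _ _ _ := s.ru g okX13_209 p13_172_0
  have s : St _ β _ _ (3391 * 32) _ _ _ _ _ _ _ _ := s.rnz (i := 108512) g r13_172_3 ⟨by norm_num, c⟩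
  have s : St _ β _ _ (3391 * 32) _ _ _ _ _ _ _ _ := s.rnz (i := 108512) g r13_172_4 ⟨by norm_num, c⟩
  have s : St _ β _ _ (3391 * 32) _ _ _ _ _ _ _ _ := s.rnz (i := 108512) g r13_172_5 ⟨by norm_num, c⟩
  have s : St _ β _ _ (3391 * 32) _ _ _ _ _ _ _ _ := s.rnz (i := 108512) g r13_172_6 ⟨by norm_num, c⟩
  have s : St _ β _ _ (3391 * 32) _ _ _ _ _ _ _ _ := s.rnz (i := 108512) g r13_173_0 ⟨by norm_num, c⟩
  have s : St _ β _ _ (3391 * 32) _ _ _ _ _ _ _ _ := s.rnz (i := 108512) g r13_173_1 ⟨by norm_num, c⟩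
  have s : St _ β _ _ (3391 * 32) _ _ _ _ _ _ _ _ := s.rnz (i := 108512) g r13_173_2 ⟨by norm_num, c⟩
  have s : St _ β _ _ (3391 * 32) _ _ _ _ _ _ _ _ := s.rnz (i := 108512) g r13_173_3 ⟨by norm_num, c⟩
  have s : St _ β _ _ (3391 * 32) _ _ _ _ _ _ _ _ := s.rnz (i := 108512) g r13_173_4 ⟨by norm_num, c⟩
  have s : St _ β _ _ (3391 * 32) _ _ _ _ _ _ _ _ := s.rnz (i := 108512) g r13_173_5 ⟨by norm_num, c⟩
  have s : St _ β _ _ (3391 * 32) _ _ _ _ _ _ _ _ := s.rnz (i := 108512) g r13_173_6 ⟨by norm_num, c⟩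
  have s : St _ β _ _ (3391 * 32) _ _ _ _ _ _ _ _ := s.rnz (i := 108512) g r13_174_0 ⟨by norm_num, c⟩
  have s : St _ β _ _ (3391 * 32) _ _ _ _ _ _ _ _ := s.rnz (i := 108512) g r13_174_1 ⟨by norm_num, c⟩
  have s : St _ β _ _ (3391 * 32) _ _ _ _ _ _ _ _ := s.rnz (i := 108512) g r13_174_2 ⟨by norm_num, c⟩
  have s : St _ β _ _ (3391 * 32) _ _ _ _ _ _ _ _ := s.rnz (i := 108512) g r13_174_3 ⟨by norm_num, c⟩
  have s : St _ β _ _ (3391 * 32) _ _ _ _ _ _ _ _ := s.rnz (i := 108512) g r13_174_4 ⟨by norm_num, c⟩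
  have s : St _ β _ _ (3391 * 32) _ _ _ _ _ _ _ _ := s.rnz (i := 108512) g r13_174_5 ⟨by norm_num, c⟩
  have s : St _ β _ _ (3391 * 32) _ _ _ _ _ _ _ _ := s.rnz (i := 108512) g r13_174_6 ⟨by norm_num, c⟩
  have s : St _ β _ _ (3391 * 32) _ _ _ _ _ _ _ _ := s.rnz (i := 108512) g r13_175_0 ⟨by norm_num, c⟩
  have s : St _ β _ _ (3391 * 32) _ _ _ _ _ _ _ _ := s.rnz (i := 108512) g r13_175_1 ⟨by norm_num, c⟩
  have s : St _ β _ _ (3391 * 32) _ _ _ _ _ _ _ _ := s.rnz (i := 108512) g r13_175_2 ⟨by norm_num, c⟩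
  have s : St _ β _ _ (3439 * 32) _ _ _ _ _ _ _ _ := s.ru g okX13_238 p13_175_3
  have s : St _ β _ _ (3518 * 32) _ _ _ _ _ _ _ _ := s.ru g okX13_238 p13_176_0
  have s : St _ β _ _ (3571 * 32) _ _ _ _ _ _ _ _ := s.ru g okX13_238 p13_177_0
  have s : St _ β _ _ (3613 * 32) _ _ _ _ _ _ _ _ := s.ru g okX13_238 p13_178_0
  have s : St _ β _ _ (3633 * 32) _ _ _ _ _ _ _ _ := s.ru g okX13_238 p13_179_0
  have s : St _ β _ _ (3633 * 32) _ _ _ _ _ _ _ _ := s.rnz (i := 116256) g r13_179_7 ⟨by norm_num, c⟩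
  have s : St _ β _ _ (3633 * 32) _ _ _ _ _ _ _ _ := s.rnz (i := 116256) g r13_179_8 ⟨by norm_num, c⟩
  have s : St _ β _ _ (3633 * 32) _ _ _ _ _ _ _ _ := s.rnz (i := 116256) g r13_179_9 ⟨by norm_num, c⟩
  have s : St _ β _ _ (3633 * 32) _ _ _ _ _ _ _ _ := s.rnz (i := 116256) g r13_179_10 ⟨by norm_num, c⟩
  have s : St _ β _ _ (3633 * 32) _ _ _ _ _ _ _ _ := s.rnz (i := 116256) g r13_180_0 ⟨by norm_num, c⟩
  have s : St _ β _ _ (3633 * 32) _ _ _ _ _ _ _ _ := s.rnz (i := 116256) g r13_180_1 ⟨by norm_num, c⟩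
  have s : St _ β _ _ (3633 * 32) _ _ _ _ _ _ _ _ := s.rnz (i := 116256) g r13_180_2 ⟨by norm_num, c⟩
  have s : St _ β _ _ (3633 * 32) _ _ _ _ _ _ _ _ := s.rnz (i := 116256) g r13_180_3 ⟨by norm_num, c⟩
  have s : St _ β _ _ (3633 * 32) _ _ _ _ _ _ _ _ := s.rnz (i := 116256) g r13_180_4 ⟨by norm_num, c⟩
  have s : St _ β _ _ (3646 * 32) _ _ _ _ _ _ _ _ := s.ru g okX13_253 p13_180_5
  have s : St _ β _ _ (3716 * 32) _ _ _ _ _ _ _ _ := s.ru g okX13_253 p13_181_0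
  have s : St _ β _ _ (3777 * 32) _ _ _ _ _ _ _ _ := s.ru g okX13_253 p13_182_0
  have s : St _ β _ _ (3827 * 32) _ _ _ _ _ _ _ _ := s.ru g okX13_253 p13_183_0
  have s : St _ β _ _ (3870 * 32) _ _ _ _ _ _ _ _ := s.ru g okX13_253 p13_184_0
  have s : St _ β _ _ (3892 * 32) _ _ _ _ _ _ _ _ := s.ru g okX13_253 p13_185_0
  have s : St _ β _ _ (3892 * 32) _ _ _ _ _ _ _ _ := s.rnz (i := 124544) g r13_185_6 ⟨by norm_num, c⟩
  have s : St _ β _ _ (3892 * 32) _ _ _ _ _ _ _ _ := s.rnz (i := 124544) g r13_185_7 ⟨by norm_num, c⟩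
  have s : St _ β _ _ (3892 * 32) _ _ _ _ _ _ _ _ := s.rnz (i := 124544) g r13_185_8 ⟨by norm_num, c⟩
  have s : St _ β _ _ (3892 * 32) _ _ _ _ _ _ _ _ := s.rnz (i := 124544) g r13_186_0 ⟨by norm_num, c⟩
  have s : St _ β _ _ (3892 * 32) _ _ _ _ _ _ _ _ := s.rnz (i := 124544) g r13_186_1 ⟨by norm_num, c⟩
  have s : St _ β _ _ (3892 * 32) _ _ _ _ _ _ _ _ := s.rnz (i := 124544) g r13_186_2 ⟨by norm_num, c⟩
  have s : St _ β _ _ (3892 * 32) _ _ _ _ _ _ _ _ := s.rnz (i := 124544) g r13_186_3 ⟨by norm_num, c⟩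
  have s : St _ β _ _ (3892 * 32) _ _ _ _ _ _ _ _ := s.rnz (i := 124544) g r13_186_4 ⟨by norm_num, c⟩
  have s : St _ β _ _ (3892 * 32) _ _ _ _ _ _ _ _ := s.rnz (i := 124544) g r13_187_0 ⟨by norm_num, c⟩
  have s : St _ β _ _ (3892 * 32) _ _ _ _ _ _ _ _ := s.rnz (i := 124544) g r13_187_1 ⟨by norm_num, c⟩
  have s : St _ β _ _ (3892 * 32) _ _ _ _ _ _ _ _ := s.rnz (i := 124544) g r13_187_2 ⟨by norm_num, c⟩
  have s : St _ β _ _ (3892 * 32) _ _ _ _ _ _ _ _ := s.rnz (i := 124544) g r13_187_3 ⟨by norm_num, c⟩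
  have s : St _ β _ _ (3892 * 32) _ _ _ _ _ _ _ _ := s.rnz (i := 124544) g r13_187_4 ⟨by norm_num, c⟩
  have s : St _ β _ _ (3892 * 32) _ _ _ _ _ _ _ _ := s.rnz (i := 124544) g r13_187_5 ⟨by norm_num, c⟩
  have s : St _ β _ _ (3892 * 32) _ _ _ _ _ _ _ _ := s.rnz (i := 124544) g r13_187_6 ⟨by norm_num, c⟩
  have s : St _ β _ _ (3892 * 32) _ _ _ _ _ _ _ _ := s.rnz (i := 124544) g r13_188_0 ⟨by norm_num, c⟩
  have s : St _ β _ _ (3892 * 32) _ _ _ _ _ _ _ _ := s.rnz (i := 124544) g r13_188_1 ⟨by norm_num, c⟩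
  have s : St _ β _ _ (3943 * 32) _ _ _ _ _ _ _ _ := s.ru g okX13_283 p13_188_2
  have s : St _ β _ _ (3990 * 32) _ _ _ _ _ _ _ _ := s.ru g okX13_283 p13_189_0
  have s : St _ β _ _ (3990 * 32) _ _ _ _ _ _ _ _ := s.rnz (i := 127680) g r13_189_12 ⟨by norm_num, c⟩
  have s : St _ β _ _ (3990 * 32) _ _ _ _ _ _ _ _ := s.rnz (i := 127680) g r13_190_0 ⟨by norm_num, c⟩
  have s : St _ β _ _ (3990 * 32) _ _ _ _ _ _ _ _ := s.rnz (i := 127680) g r13_190_1 ⟨by norm_num, c⟩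
  have s : St _ β _ _ (3990 * 32) _ _ _ _ _ _ _ _ := s.rnz (i := 127680) g r13_190_2 ⟨by norm_num, c⟩
  have s : St _ β _ _ (3990 * 32) _ _ _ _ _ _ _ _ := s.rnz (i := 127680) g r13_190_3 ⟨by norm_num, c⟩
  have s : St _ β _ _ (3990 * 32) _ _ _ _ _ _ _ _ := s.rnz (i := 127680) g r13_190_4 ⟨by norm_num, c⟩
  have s : St _ β _ _ (3990 * 32) _ _ _ _ _ _ _ _ := s.rnz (i := 127680) g r13_191_0 ⟨by norm_num, c⟩
  have s : St _ β _ _ (4036 * 32) _ _ _ _ _ _ _ _ := s.ru g okX13_296 p13_191_1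
  have s : St _ β _ _ (4080 * 32) _ _ _ _ _ _ _ _ := s.ru g okX13_296 p13_192_0
  have s : St _ β _ _ (4080 * 32) _ _ _ _ _ _ _ _ := s.rnz (i := 130560) g r13_192_12 ⟨by norm_num, c⟩
  have s : St _ β _ _ (4080 * 32) _ _ _ _ _ _ _ _ := s.rnz (i := 130560) g r13_193_0 ⟨by norm_num, c⟩
  have s : St _ β _ _ (4080 * 32) _ _ _ _ _ _ _ _ := s.rnz (i := 130560) g r13_193_1 ⟨by norm_num, c⟩
  have s : St _ β _ _ (4080 * 32) _ _ _ _ _ _ _ _ := s.rnz (i := 130560) g r13_193_2 ⟨by norm_num, c⟩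
  have s : St _ β _ _ (4080 * 32) _ _ _ _ _ _ _ _ := s.rnz (i := 130560) g r13_193_3 ⟨by norm_num, c⟩
  have s : St _ β _ _ (4080 * 32) _ _ _ _ _ _ _ _ := s.rnz (i := 130560) g r13_193_4 ⟨by norm_num, c⟩
  have s : St _ β _ _ (4080 * 32) _ _ _ _ _ _ _ _ := s.rnz (i := 130560) g r13_193_5 ⟨by norm_num, c⟩
  have s : St _ β _ _ (4080 * 32) _ _ _ _ _ _ _ _ := s.rnz (i := 130560) g r13_194_0 ⟨by norm_num, c⟩
  have s : St _ β _ _ (4080 * 32) _ _ _ _ _ _ _ _ := s.rnz (i := 130560) g r13_194_1 ⟨by norm_num, c⟩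
  have s : St _ β _ _ (4080 * 32) _ _ _ _ _ _ _ _ := s.rnz (i := 130560) g r13_194_2 ⟨by norm_num, c⟩
  have s : St _ β _ _ (4080 * 32) _ _ _ _ _ _ _ _ := s.rnz (i := 130560) g r13_194_3 ⟨by norm_num, c⟩
  have s : St _ β _ _ (4080 * 32) _ _ _ _ _ _ _ _ := s.rnz (i := 130560) g r13_194_4 ⟨by norm_num, c⟩
  have s : St _ β _ H13_2 (96 * 32) _ _ _ _ _ _ _ _ := s.cpy (i := 130560) cp13_2
  have s : St _ β _ _ (156 * 32) _ _ _ _ _ _ _ _ := s.ru g okX13_317 p13_195_0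
  have s : St _ β _ _ (156 * 32) _ _ _ _ _ _ _ _ := s.rnz (i := 4992) g r13_195_12 ⟨by norm_num, c⟩
  have s : St _ β _ _ (156 * 32) _ _ _ _ _ _ _ _ := s.rnz (i := 4992) g r13_196_0 ⟨by norm_num, c⟩
  have s : St _ β _ _ (156 * 32) _ _ _ _ _ _ _ _ := s.rnz (i := 4992) g r13_196_1 ⟨by norm_num, c⟩
  have s : St _ β _ _ (156 * 32) _ _ _ _ _ _ _ _ := s.rnz (i := 4992) g r13_196_2 ⟨by norm_num, c⟩
  have s : St _ β _ _ (156 * 32) _ _ _ _ _ _ _ _ := s.rnz (i := 4992) g r13_196_3 ⟨by norm_num, c⟩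
  have s : St _ β _ _ (156 * 32) _ _ _ _ _ _ _ _ := s.rnz (i := 4992) g r13_196_4 ⟨by norm_num, c⟩
  have s : St _ β _ _ (172 * 32) _ _ _ _ _ _ _ _ := s.ru g okX13_330 p13_196_5
  have s : St _ β _ _ (185 * 32) _ _ _ _ _ _ _ _ := s.ru g okX13_330 p13_197_0
  have s : St _ β _ _ (185 * 32) _ _ _ _ _ _ _ _ := s.rnz (i := 5920) g r13_197_3 ⟨by norm_num, c⟩
  have s : St _ β _ _ (185 * 32) _ _ _ _ _ _ _ _ := s.rnz (i := 5920) g r13_197_4 ⟨by norm_num, c⟩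
  have s : St _ β _ _ (185 * 32) _ _ _ _ _ _ _ _ := s.rnz (i := 5920) g r13_197_5 ⟨by norm_num, c⟩
  have s : St _ β _ _ (210 * 32) _ _ _ _ _ _ _ _ := s.ru g okX13_336 p13_197_6
  have s : St _ β _ _ (215 * 32) _ _ _ _ _ _ _ _ := s.ru g okX13_336 p13_198_0
  have s : St _ β _ _ (215 * 32) _ _ _ _ _ _ _ _ := s.rnz (i := 6880) g r13_198_1 ⟨by norm_num, c⟩
  have s : St _ β _ _ (215 * 32) _ _ _ _ _ _ _ _ := s.rnz (i := 6880) g r13_198_2 ⟨by norm_num, c⟩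
  have s : St _ β _ _ (215 * 32) _ _ _ _ _ _ _ _ := s.rnz (i := 6880) g r13_198_3 ⟨by norm_num, c⟩
  have s : St _ β _ _ (237 * 32) _ _ _ _ _ _ _ _ := s.ru g okX13_342 p13_198_4
  have s : St _ β _ _ (237 * 32) _ _ _ _ _ _ _ _ := s.rnz (i := 7584) g r13_198_8 ⟨by norm_num, c⟩
  have s : St _ β _ _ (237 * 32) _ _ _ _ _ _ _ _ := s.rnz (i := 7584) g r13_198_9 ⟨by norm_num, c⟩
  have s : St _ β _ _ (237 * 32) _ _ _ _ _ _ _ _ := s.rnz (i := 7584) g r13_199_0 ⟨by norm_num, c⟩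
  have s : St _ β _ _ (237 * 32) _ _ _ _ _ _ _ _ := s.rnz (i := 7584) g r13_199_1 ⟨by norm_num, c⟩
  have s : St _ β _ _ (237 * 32) _ _ _ _ _ _ _ _ := s.rnz (i := 7584) g r13_199_2 ⟨by norm_num, c⟩
  have s : St _ β _ _ (237 * 32) _ _ _ _ _ _ _ _ := s.rnz (i := 7584) g r13_199_3 ⟨by norm_num, c⟩
  have s : St _ β _ _ (240 * 32) _ _ _ _ _ _ _ _ := s.ru g okX13_352 p13_199_4
  have s : St _ β _ _ (240 * 32) _ _ _ _ _ _ _ _ := s.rnz (i := 7680) g r13_199_5 ⟨by norm_num, c⟩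
  have s : St _ β _ _ (240 * 32) _ _ _ _ _ _ _ _ := s.rnz (i := 7680) g r13_199_6 ⟨by norm_num, c⟩
  exact s.out g (by decide +kernel)

theorem tab21 : tab FA FB D21 R21 3 = true := by decide +kernel

theorem seg21 : Seg ⟨FA, FB, FT, 69657, 10049, 39817, geo_ok⟩ 10049 9617 8400 10050 := fun _ E β ht h hb h' => by
  letI : Geo := ⟨FA, FB, FT, 69657, 10049, 39817, geo_ok⟩
  have c : rd R21 35 = 9617 := by decide +kernel
  have g := tc_re (E := E) tab21 (ro := 10049) (C0 := 9617) (by decide +kernel) ht hb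
  have s : St (E.re tab21) β 9617 H21_0 (0 * 32) _ X21_0 _ _ _ _ _ _ :=
    g.start H21_0 9617 1 (by decide +kernel) h h'
  have s : St _ β _ _ (15 * 32) _ _ _ _ _ _ _ _ := s.ru g okX21_0 p21_0_0
  have s : St _ β _ _ (15 * 32) _ _ _ _ _ _ _ _ := s.rnz (i := 480) g r21_0_2 ⟨by norm_num, c⟩
  have s : St _ β _ _ (25 * 32) _ _ _ _ _ _ _ _ := s.ru g okX21_0 p21_0_3
  have s : St _ β _ _ (25 * 32) _ _ _ _ _ _ _ _ := s.rnz (i := 800) g r21_0_5 ⟨by norm_num, c⟩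
  have s : St _ β _ _ (41 * 32) _ _ _ _ _ _ _ _ := s.ru g okX21_0 p21_0_6
  have s : St _ β _ _ (41 * 32) _ _ _ _ _ _ _ _ := s.rnz (i := 1312) g r21_0_9 ⟨by norm_num, c⟩
  have s : St _ β _ _ (61 * 32) _ _ _ _ _ _ _ _ := s.ru g okX21_0 p21_0_10
  have s : St _ β _ _ (61 * 32) _ _ _ _ _ _ _ _ := s.rnz (i := 1952) g r21_0_13 ⟨by norm_num, c⟩
  have s : St _ β _ _ (74 * 32) _ _ _ _ _ _ _ _ := s.ru g okX21_4 p21_0_14
  have s : St _ β _ _ (74 * 32) _ _ _ _ _ _ _ _ := s.rnz (i := 2368) g r21_0_16 ⟨by norm_num, c⟩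
  have s : St _ β _ _ (80 * 32) _ _ _ _ _ _ _ _ := s.ru g okX21_6 p21_0_17
  have s : St _ β _ _ (81 * 32) _ _ _ _ _ _ _ _ := s.ru g okX21_6 p21_1_0
  have s : St _ β _ _ (81 * 32) _ _ _ _ _ _ _ _ := s.rnz (i := 2592) g r21_1_1 ⟨by norm_num, c⟩
  have s : St _ β _ _ (82 * 32) _ _ _ _ _ _ _ _ := s.ru g okX21_8 p21_1_2
  have s : St _ β _ _ (82 * 32) _ _ _ _ _ _ _ _ := s.rnz (i := 2624) g r21_1_3 ⟨by norm_num, c⟩
  have s : St _ β _ _ (85 * 32) _ _ _ _ _ _ _ _ := s.ru g okX21_8 p21_1_4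
  have s : St _ β _ _ (85 * 32) _ _ _ _ _ _ _ _ := s.rnz (i := 2720) g r21_1_5 ⟨by norm_num, c⟩
  have s : St _ β _ _ (87 * 32) _ _ _ _ _ _ _ _ := s.ru g okX21_8 p21_1_6
  have s : St _ β _ _ (87 * 32) _ _ _ _ _ _ _ _ := s.rnz (i := 2784) g r21_1_7 ⟨by norm_num, c⟩
  have s : St _ β _ _ (88 * 32) _ _ _ _ _ _ _ _ := s.ru g okX21_11 p21_1_8
  have s : St _ β _ _ (88 * 32) _ _ _ _ _ _ _ _ := s.rnz (i := 2816) g r21_1_9 ⟨by norm_num, c⟩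
  have s : St _ β _ _ (89 * 32) _ _ _ _ _ _ _ _ := s.ru g okX21_11 p21_1_10
  have s : St _ β _ _ (89 * 32) _ _ _ _ _ _ _ _ := s.rnz (i := 2848) g r21_1_11 ⟨by norm_num, c⟩
  have s : St _ β _ _ (98 * 32) _ _ _ _ _ _ _ _ := s.ru g okX21_11 p21_1_12
  have s : St _ β _ _ (98 * 32) _ _ _ _ _ _ _ _ := s.rnz (i := 3136) g r21_1_13 ⟨by norm_num, c⟩
  have s : St _ β _ _ (99 * 32) _ _ _ _ _ _ _ _ := s.ru g okX21_14 p21_1_14
  have s : St _ β _ _ (99 * 32) _ _ _ _ _ _ _ _ := s.rnz (i := 3168) g r21_1_15 ⟨by norm_num, c⟩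
  have s : St _ β _ _ (106 * 32) _ _ _ _ _ _ _ _ := s.ru g okX21_14 p21_1_16
  have s : St _ β _ _ (106 * 32) _ _ _ _ _ _ _ _ := s.rnz (i := 3392) g r21_1_18 ⟨by norm_num, c⟩
  have s : St _ β _ _ (107 * 32) _ _ _ _ _ _ _ _ := s.ru g okX21_14 p21_1_19
  have s : St _ β _ _ (107 * 32) _ _ _ _ _ _ _ _ := s.rnz (i := 3424) g r21_1_20 ⟨by norm_num, c⟩
  have s : St _ β _ _ (118 * 32) _ _ _ _ _ _ _ _ := s.ru g okX21_14 p21_1_21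
  have s : St _ β _ _ (118 * 32) _ _ _ _ _ _ _ _ := s.rnz (i := 3776) g r21_1_23 ⟨by norm_num, c⟩
  have s : St _ β _ _ (118 * 32) _ _ _ _ _ _ _ _ := s.rnz (i := 3776) g r21_1_24 ⟨by norm_num, c⟩
  have s : St _ β _ _ (122 * 32) _ _ _ _ _ _ _ _ := s.ru g okX21_18 p21_1_25
  have s : St _ β _ _ (124 * 32) _ _ _ _ _ _ _ _ := s.ru g okX21_18 p21_2_0
  have s : St _ β _ _ (124 * 32) _ _ _ _ _ _ _ _ := s.rnz (i := 3968) g r21_2_1 ⟨by norm_num, c⟩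
  have s : St _ β _ _ (128 * 32) _ _ _ _ _ _ _ _ := s.ru g okX21_19 p21_2_2
  have s : St _ β _ _ (128 * 32) _ _ _ _ _ _ _ _ := s.rnz (i := 4096) g r21_2_3 ⟨by norm_num, c⟩
  have s : St _ β _ _ (130 * 32) _ _ _ _ _ _ _ _ := s.ru g okX21_21 p21_2_4
  have s : St _ β _ _ (130 * 32) _ _ _ _ _ _ _ _ := s.rnz (i := 4160) g r21_2_5 ⟨by norm_num, c⟩
  have s : St _ β _ _ (131 * 32) _ _ _ _ _ _ _ _ := s.ru g okX21_21 p21_2_6
  have s : St _ β _ _ (131 * 32) _ _ _ _ _ _ _ _ := s.rnz (i := 4192) g r21_2_7 ⟨by norm_num, c⟩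
  have s : St _ β _ _ (132 * 32) _ _ _ _ _ _ _ _ := s.ru g okX21_24 p21_2_8
  have s : St _ β _ _ (132 * 32) _ _ _ _ _ _ _ _ := s.rnz (i := 4224) g r21_2_9 ⟨by norm_num, c⟩
  have s : St _ β _ _ (134 * 32) _ _ _ _ _ _ _ _ := s.ru g okX21_24 p21_2_10
  have s : St _ β _ _ (134 * 32) _ _ _ _ _ _ _ _ := s.rnz (i := 4288) g r21_2_11 ⟨by norm_num, c⟩
  have s : St _ β _ _ (135 * 32) _ _ _ _ _ _ _ _ := s.ru g okX21_26 p21_2_12
  have s : St _ β _ _ (135 * 32) _ _ _ _ _ _ _ _ := s.rnz (i := 4320) g r21_2_13 ⟨by norm_num, c⟩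
  have s : St _ β _ _ (136 * 32) _ _ _ _ _ _ _ _ := s.ru g okX21_26 p21_2_14
  have s : St _ β _ _ (136 * 32) _ _ _ _ _ _ _ _ := s.rnz (i := 4352) g r21_2_15 ⟨by norm_num, c⟩
  have s : St _ β _ _ (140 * 32) _ _ _ _ _ _ _ _ := s.ru g okX21_26 p21_2_16
  have s : St _ β _ _ (140 * 32) _ _ _ _ _ _ _ _ := s.rnz (i := 4480) g r21_2_17 ⟨by norm_num, c⟩
  have s : St _ β _ _ (141 * 32) _ _ _ _ _ _ _ _ := s.ru g okX21_29 p21_2_18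
  have s : St _ β _ _ (141 * 32) _ _ _ _ _ _ _ _ := s.rnz (i := 4512) g r21_2_19 ⟨by norm_num, c⟩
  have s : St _ β _ _ (142 * 32) _ _ _ _ _ _ _ _ := s.ru g okX21_29 p21_2_20
  have s : St _ β _ _ (142 * 32) _ _ _ _ _ _ _ _ := s.rnz (i := 4544) g r21_2_21 ⟨by norm_num, c⟩
  have s : St _ β _ _ (143 * 32) _ _ _ _ _ _ _ _ := s.ru g okX21_29 p21_2_22
  have s : St _ β _ _ (143 * 32) _ _ _ _ _ _ _ _ := s.rnz (i := 4576) g r21_2_23 ⟨by norm_num, c⟩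
  have s : St _ β _ _ (144 * 32) _ _ _ _ _ _ _ _ := s.ru g okX21_33 p21_2_24
  have s : St _ β _ _ (144 * 32) _ _ _ _ _ _ _ _ := s.rnz (i := 4608) g r21_2_25 ⟨by norm_num, c⟩
  have s : St _ β _ _ (151 * 32) _ _ _ _ _ _ _ _ := s.ru g okX21_33 p21_2_26
  have s : St _ β _ _ (151 * 32) _ _ _ _ _ _ _ _ := s.rnz (i := 4832) g r21_2_27 ⟨by norm_num, c⟩
  have s : St _ β _ _ (151 * 32) _ _ _ _ _ _ _ _ := s.rnz (i := 4832) g r21_2_28 ⟨by norm_num, c⟩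
  have s : St _ β _ _ (151 * 32) _ _ _ _ _ _ _ _ := s.rnz (i := 4832) g r21_3_0 ⟨by norm_num, c⟩
  have s : St _ β _ _ (151 * 32) _ _ _ _ _ _ _ _ := s.rnz (i := 4832) g r21_3_1 ⟨by norm_num, c⟩
  have s : St _ β _ _ (151 * 32) _ _ _ _ _ _ _ _ := s.rnz (i := 4832) g r21_3_2 ⟨by norm_num, c⟩
  have s : St _ β _ _ (151 * 32) _ _ _ _ _ _ _ _ := s.rnz (i := 4832) g r21_4_0 ⟨by norm_num, c⟩
  have s : St _ β _ _ (151 * 32) _ _ _ _ _ _ _ _ := s.rnz (i := 4832) g r21_4_1 ⟨by norm_num, c⟩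
  have s : St _ β _ _ (151 * 32) _ _ _ _ _ _ _ _ := s.rnz (i := 4832) g r21_4_2 ⟨by norm_num, c⟩
  exact s.out g (by decide +kernel)

theorem many : Many2 ⟨FA, FB, FT, 69657, 10049, 39817, geo_ok⟩ 10049 9617 :=
  (((seg1.app seg3 (by norm_num)).app seg13 (by norm_num)).app seg21 (by norm_num)).many (by norm_num)

end

end Pool.Agent.MP_1037db_co.Q.E
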